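import Pool.Agent.U954.PO.Mad
import Pool.Agent.U954.PO.Ord

/-!
# Ascents of all orders in the numbers of fixed polyominoes

Let `t n` be the number of fixed polyominoes with `n` cells. We prove that every interval
`[n, exp(C log^2 n)]`, `n ≥ 2`, contains a `j` with `t(j+1)^2 < t(j) t(j+2)`, that is
`t(j+1)/t(j) < t(j+2)/t(j+1)`; more generally for each `r ≥ 2` it contains, for a constant `C = C_r`, a `j` with
`∑ (-1)^i binom(r,i) log t(j+i) ≥ exp(-C log^2 n)`.

Proof. Let `a(n) = log (t(n)/lam^n)`. Then `-K log^2 n ≤ a(n) ≤ -c log n`: the lower bound is from the starting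
library, the upper one from gluing two polyominoes of equal size by one cell at all relative heights. So `a`
has to decrease by at least 1 between `n` and `exp(C log^2 n)`, which gives the first difference; as the
differences of order `r ≥ 1` tend to zero with a rate, the induction over `r` follows.
-/

set_option autoImplicit false

namespace Pool.Agent.Results.MP_56ddc0_co.Ascents

open Filter Topology Finset Pool.Agent.N789 Pool.Agent.N789.Kl Pool.Agent.U954.PO

/-- differences of order `r` with signs -/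
noncomputable def F (f : ℕ → ℝ) (r n : ℕ) : ℝ :=
  ∑ i ∈ range (r + 1), (-1 : ℝ) ^ i * (r.choose i : ℝ) * f (n + i)

lemma F_zero (f : ℕ → ℝ) (n : ℕ) : F f 0 n = f n := by
  unfold F
  simp

lemma F_succ (f : ℕ → ℝ) (r n : ℕ) : F f (r + 1) n = F f r n - F f r (n + 1) := by
  unfold F
  have h1 : ∑ i ∈ range (r + 1), (-1 : ℝ) ^ i * (r.choose i : ℝ) * f (n + i) =
      ∑ i ∈ range (r + 1), (-1 : ℝ) ^ (i + 1) * (r.choose (i + 1) : ℝ) * f (n + (i + 1)) + f n := by
    have h2 := sum_range_succ (fun i => (-1 : ℝ) ^ i * (r.choose i : ℝ) * f (n + i)) (r + 1)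
    rw [Nat.choose_succ_self] at h2
    rw [sum_range_succ'] at h2
    simp only [Nat.cast_zero, mul_zero, zero_mul, add_zero, pow_zero, Nat.choose_zero_right,
      Nat.cast_one, mul_one, one_mul] at h2
    exact h2.symm
  rw [sum_range_succ', h1, sub_eq_add_neg, ← sum_neg_distrib]
  simp only [pow_zero, Nat.choose_zero_right, Nat.cast_one, mul_one, one_mul, add_zero]
  rw [add_right_comm, ← sum_add_distrib]
  congr 1
  refine sum_congr rfl (fun i _ => ?_)
  rw [Nat.choose_succ_succ, show n + 1 + i = n + (i + 1) by ring]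
  push_cast
  ring

/-- a large increment -/
lemma pick (f : ℕ → ℝ) {j M : ℕ} {δ : ℝ} (hjM : j < M) (hδ : 0 < δ) (h : δ ≤ f j - f M) :
    ∃ i, j ≤ i ∧ i < M ∧ δ / M ≤ f i - f (i + 1) := by
  by_contra hcon
  push Not at hcon
  have hM : (0 : ℝ) < M := by
    have : 0 < M := by omega
    exact_mod_cast this
  have h1 : ∑ i ∈ Ico j M, (f (i + 1) - f i) = f M - f j := sum_Ico_sub f hjM.le
  have h2 : ∑ i ∈ Ico j M, (f i - f (i + 1)) = f j - f M := by
    have : ∑ i ∈ Ico j M, (f i - f (i + 1)) = -∑ i ∈ Ico j M, (f (i + 1) - f i) := by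
      rw [← sum_neg_distrib]
      exact sum_congr rfl (fun i _ => by ring)
    rw [this, h1]
    ring
  have h3 : ∑ i ∈ Ico j M, (f i - f (i + 1)) < ∑ i ∈ Ico j M, δ / M := by
    apply sum_lt_sum_of_nonempty (nonempty_Ico.2 hjM)
    intro i hi
    rw [mem_Ico] at hi
    exact hcon i hi.1 hi.2
  rw [sum_const, Nat.card_Ico, nsmul_eq_mul, h2] at h3
  have h4 : (((M - j : ℕ) : ℝ)) * (δ / M) ≤ M * (δ / M) := by
    have : (((M - j : ℕ) : ℝ)) ≤ M := by exact_mod_cast Nat.sub_le M j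
    gcongr
  have h5 : (M : ℝ) * (δ / M) = δ := by field_simp
  linarith

/-- `log (t(n) / lam^n)` -/
noncomputable def la (n : ℕ) : ℝ := Real.log (aa n)

lemma sq_log {n : ℕ} (hn : 2 ≤ n) : (0.69 : ℝ) ≤ Real.log n ∧ (0.47 : ℝ) ≤ Real.log n ^ 2 := by
  have h1 := Real.log_two_gt_d9
  have h2 : Real.log 2 ≤ Real.log n := Real.log_le_log (by norm_num) (by exact_mod_cast hn)
  have h3 : (0.69 : ℝ) ≤ Real.log n := by linarith
  exact ⟨h3, by nlinarith⟩

/-- the ceiling of `exp (B L)` -/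
lemma ceil_exp {B L : ℝ} (hB : 0 ≤ B) (hL : 0.47 ≤ L) : Real.exp (B * L) ≤ (⌈Real.exp (B * L)⌉₊ : ℝ) ∧
    (⌈Real.exp (B * L)⌉₊ : ℝ) ≤ Real.exp ((B + 2) * L) := by
  refine ⟨Nat.le_ceil _, ?_⟩
  have h1 : (⌈Real.exp (B * L)⌉₊ : ℝ) < Real.exp (B * L) + 1 := Nat.ceil_lt_add_one (Real.exp_pos _).le
  have h2 : (1 : ℝ) ≤ Real.exp (B * L) := Real.one_le_exp (by positivity)
  have h3 : (2 : ℝ) ≤ Real.exp (2 * L) := by
    have h4 : Real.exp (Real.log 2) ≤ Real.exp (2 * L) := by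
      apply Real.exp_le_exp.2
      have := Real.log_two_lt_d9
      linarith
    rwa [Real.exp_log (by norm_num)] at h4
  have h4 : Real.exp ((B + 2) * L) = Real.exp (B * L) * Real.exp (2 * L) := by
    rw [← Real.exp_add]
    congr 1
    ring
  rw [h4]
  nlinarith

lemma half_exp {L : ℝ} (hL : 0.47 ≤ L) : Real.exp (-(2 * L)) ≤ 1 / 2 := by
  have h4 : Real.exp (-(2 * L)) ≤ Real.exp (-Real.log 2) := by
    apply Real.exp_le_exp.2
    have := Real.log_two_lt_d9
    linarith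
  rw [Real.exp_neg (Real.log 2), Real.exp_log (by norm_num)] at h4
  linarith

/-- the base of the induction -/
lemma base : ∃ C : ℝ, 0 < C ∧ ∀ n : ℕ, 2 ≤ n → ∃ j : ℕ, n ≤ j ∧
    (j : ℝ) ≤ Real.exp (C * Real.log n ^ 2) ∧ Real.exp (-(C * Real.log n ^ 2)) ≤ F la 1 j := by
  obtain ⟨c, hc, hup⟩ := la_upper
  obtain ⟨K, hK, hlow⟩ := Pool.Agent.N505.AP.low
  have hl := lam_pos
  set B := (K + 3) / c + 2 with hB
  have hB0 : 2 ≤ B := by
    have : 0 ≤ (K + 3) / c := by positivity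
    linarith
  have hcB : K + 3 ≤ c * B := by
    have : c * ((K + 3) / c) = K + 3 := by field_simp
    rw [hB]
    nlinarith
  refine ⟨B + 2, by linarith, fun n hn => ?_⟩
  obtain ⟨hL1, hL2⟩ := sq_log hn
  obtain ⟨h1, h2⟩ := ceil_exp (B := B) (by linarith) hL2
  set M := ⌈Real.exp (B * Real.log n ^ 2)⌉₊ with hM
  have hn0 : (0 : ℝ) < n := by positivity
  have hnM' : (n : ℝ) < M := by
    refine lt_of_lt_of_le ?_ h1
    calc (n : ℝ) = Real.exp (Real.log n) := (Real.exp_log hn0).symm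
      _ < Real.exp (B * Real.log n ^ 2) := by
          apply Real.exp_lt_exp.2
          nlinarith
  have hnM : n < M := by exact_mod_cast hnM'
  have hM0 : (0 : ℝ) < M := by linarith
  have hlogM : B * Real.log n ^ 2 ≤ Real.log M := by
    rw [← Real.log_exp (B * Real.log n ^ 2)]
    exact Real.log_le_log (Real.exp_pos _) h1
  have h3 : -(K * Real.log n ^ 2) ≤ la n := by
    have h4 := hlow n hn
    have h5 := aa_pos (n := n) (by omega)
    have h6 : 1 ≤ aa n * Real.exp (K * Real.log n ^ 2) := by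
      unfold aa
      rw [div_mul_eq_mul_div, le_div_iff₀ (by positivity), one_mul]
      exact h4
    have h7 := Real.log_nonneg h6
    rw [Real.log_mul h5.ne' (Real.exp_pos _).ne', Real.log_exp] at h7
    unfold la
    linarith
  have h4 : la M ≤ -(c * Real.log M) := hup M (by omega)
  have h5 : (1 : ℝ) ≤ la n - la M := by
    have h6 : c * (B * Real.log n ^ 2) ≤ c * Real.log M := by gcongr
    nlinarith
  obtain ⟨i, hi1, hi2, hi3⟩ := pick la hnM one_pos h5
  have hiM : (i : ℝ) ≤ M := by exact_mod_cast hi2.le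
  refine ⟨i, hi1, hiM.trans h2, ?_⟩
  rw [F_succ, F_zero, F_zero]
  refine le_trans ?_ hi3
  rw [Real.exp_neg, one_div]
  exact inv_anti₀ hM0 h2

/-- the step of the induction -/
lemma step {r : ℕ} (hr : 1 ≤ r) (ih : ∃ C : ℝ, 0 < C ∧ ∀ n : ℕ, 2 ≤ n → ∃ j : ℕ, n ≤ j ∧
    (j : ℝ) ≤ Real.exp (C * Real.log n ^ 2) ∧ Real.exp (-(C * Real.log n ^ 2)) ≤ F la r j) :
    ∃ C : ℝ, 0 < C ∧ ∀ n : ℕ, 2 ≤ n → ∃ j : ℕ, n ≤ j ∧
      (j : ℝ) ≤ Real.exp (C * Real.log n ^ 2) ∧ Real.exp (-(C * Real.log n ^ 2)) ≤ F la (r + 1) j := by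
  obtain ⟨C, hC, h⟩ := ih
  obtain ⟨D, hD, hord⟩ := orders' r hr
  set D' := D * 4 ^ r with hD'
  have hD0 : 0 < D' := by positivity
  have hbd : ∀ m : ℕ, 2 ≤ m → F la r m ≤ D' / Real.sqrt (Real.sqrt m) := by
    intro m hm
    have h1 : F la r m ≤ D * (Real.log m / Real.sqrt m) ^ r := (le_abs_self _).trans (hord m hm)
    have hm0 : (1 : ℝ) ≤ m := by
      have : 1 ≤ m := by omega
      exact_mod_cast this
    have hs1 : (1 : ℝ) ≤ Real.sqrt m := Real.one_le_sqrt.2 hm0
    have hs2 : (1 : ℝ) ≤ Real.sqrt (Real.sqrt m) := Real.one_le_sqrt.2 hs1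
    set s := Real.sqrt (Real.sqrt m) with hs
    have hss : s * s = Real.sqrt m := Real.mul_self_sqrt (by linarith)
    have h2 : Real.log m / Real.sqrt m ≤ 4 / s := by
      have h3 : Real.log m = 4 * Real.log s := by
        rw [hs, Real.log_sqrt (by linarith), Real.log_sqrt (by linarith)]
        ring
      have h4 := Real.log_le_sub_one_of_pos (show 0 < s by linarith)
      rw [h3, ← hss, div_le_div_iff₀ (by positivity) (by positivity)]
      nlinarith
    have h3 : 0 ≤ Real.log m / Real.sqrt m := by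
      have := Real.log_nonneg hm0
      positivity
    calc F la r m ≤ D * (Real.log m / Real.sqrt m) ^ r := h1
      _ ≤ D * (4 / s) ^ r := by gcongr
      _ = D * 4 ^ r / s ^ r := by rw [div_pow]; ring
      _ ≤ D * 4 ^ r / s := by
          apply div_le_div_of_nonneg_left (by positivity) (by linarith)
          exact le_self_pow₀ hs2 (by omega)
  set E := |Real.log (2 * D')| with hE
  have hE0 : 0 ≤ E := abs_nonneg _
  set B := 4 * (C + 3 * E) + 1 with hB
  have hBC : C < B := by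
    rw [hB]
    linarith
  refine ⟨C + B + 4, by linarith, fun n hn => ?_⟩
  obtain ⟨j, hj1, hj2, hj3⟩ := h n hn
  obtain ⟨hL1, hL2⟩ := sq_log hn
  set L := Real.log n ^ 2 with hL
  obtain ⟨h1, h2⟩ := ceil_exp (B := B) (by linarith) hL2
  set M := ⌈Real.exp (B * L)⌉₊ with hM
  have hjM' : (j : ℝ) < M := by
    refine lt_of_lt_of_le (lt_of_le_of_lt hj2 ?_) h1
    apply Real.exp_lt_exp.2
    nlinarith
  have hjM : j < M := by exact_mod_cast hjM'
  have hM0 : (0 : ℝ) < M := by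
    have : 0 < M := by omega
    exact_mod_cast this
  have h3 : F la r M ≤ Real.exp (-(C * L)) / 2 := by
    refine (hbd M (by omega)).trans ?_
    have h4 : Real.exp (B / 4 * L) ≤ Real.sqrt (Real.sqrt M) := by
      apply Real.le_sqrt_of_sq_le
      apply Real.le_sqrt_of_sq_le
      refine le_trans (le_of_eq ?_) h1
      rw [← Real.exp_nat_mul, ← Real.exp_nat_mul]
      congr 1
      push_cast
      ring
    have h5 : 0 < Real.sqrt (Real.sqrt M) := by positivity
    rw [div_le_iff₀ h5]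
    have h6 : 2 * D' ≤ Real.exp E := by
      rw [← Real.exp_log (show 0 < 2 * D' by positivity)]
      exact Real.exp_le_exp.2 (le_abs_self _)
    have h7 : Real.exp E ≤ Real.exp (-(C * L)) * Real.exp (B / 4 * L) := by
      rw [← Real.exp_add]
      apply Real.exp_le_exp.2
      rw [hB]
      nlinarith
    have h8 : Real.exp (-(C * L)) * Real.exp (B / 4 * L) ≤
        Real.exp (-(C * L)) * Real.sqrt (Real.sqrt M) := by gcongr
    linarith
  have h4 : Real.exp (-(C * L)) / 2 ≤ F la r j - F la r M := by linarith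
  obtain ⟨i, hi1, hi2, hi3⟩ := pick (F la r) hjM (by positivity) h4
  have hiM : (i : ℝ) ≤ M := by exact_mod_cast hi2.le
  refine ⟨i, hj1.trans hi1, hiM.trans (h2.trans ?_), ?_⟩
  · apply Real.exp_le_exp.2
    nlinarith
  · rw [F_succ]
    refine le_trans ?_ hi3
    have h5 : Real.exp (-((B + 2) * L)) ≤ 1 / M := by
      rw [Real.exp_neg, one_div]
      exact inv_anti₀ hM0 h2
    have h6 := half_exp hL2
    calc Real.exp (-((C + B + 4) * L)) =
          Real.exp (-(C * L)) * Real.exp (-(2 * L)) * Real.exp (-((B + 2) * L)) := by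
          rw [← Real.exp_add, ← Real.exp_add]
          congr 1
          ring
      _ ≤ Real.exp (-(C * L)) * (1 / 2) * (1 / M) := by gcongr
      _ = Real.exp (-(C * L)) / 2 / M := by ring

lemma all (r : ℕ) : ∃ C : ℝ, 0 < C ∧ ∀ n : ℕ, 2 ≤ n → ∃ j : ℕ, n ≤ j ∧
    (j : ℝ) ≤ Real.exp (C * Real.log n ^ 2) ∧
      Real.exp (-(C * Real.log n ^ 2)) ≤ F la (r + 1) j := by
  induction r with
  | zero => exact base
  | succ r ih => exact step (by omega) ih

lemma lin (x y : ℝ) (r n : ℕ) : F (fun m => x + y * m) (r + 2) n = 0 := by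
  induction r generalizing n with
  | zero =>
    rw [F_succ, F_succ, F_succ, F_zero, F_zero, F_zero]
    push_cast
    ring
  | succ r ih =>
    rw [F_succ, ih, ih]
    ring

lemma F_la {r n : ℕ} (hr : 2 ≤ r) (hn : 1 ≤ n) :
    F la r n = F (fun m => Real.log (Kl.t m)) r n := by
  obtain ⟨k, rfl⟩ : ∃ k, r = k + 2 := ⟨r - 2, by omega⟩
  have hl := lam_pos
  have h1 := lin 0 (-Real.log lam) k n
  have h2 : F la (k + 2) n = F (fun m => Real.log (Kl.t m)) (k + 2) n +
      F (fun m => 0 + -Real.log lam * m) (k + 2) n := by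
    unfold F
    rw [← sum_add_distrib]
    refine sum_congr rfl (fun i _ => ?_)
    have h3 : la (n + i) = Real.log (Kl.t (n + i)) + -Real.log lam * ((n + i : ℕ) : ℝ) := by
      have h4 : (0 : ℝ) < Kl.t (n + i) := by
        have := t_pos (n := n + i) (by omega)
        exact_mod_cast this
      unfold la aa
      rw [Real.log_div h4.ne' (by positivity), Real.log_pow]
      ring
    rw [h3]
    ring
  rw [h2, h1, add_zero]

/-- **Theorem.** Let `t n` be the number of fixed polyominoes with `n` cells and `lam = lim t(n)^(1/n)`.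
(1) For every `r ≥ 2` there is `C > 0` such that for every `n ≥ 2` some `j` with `n ≤ j ≤ exp(C (log n)^2)` satisfies
`∑_{i ≤ r} (-1)^i binom(r,i) log t(j+i) ≥ exp(-C (log n)^2)`. (2) In particular (`r = 2`) some such `j` has
`t(j+1)^2 < t(j) t(j+2)`; and (3) some such `j` has `t(j+1) < lam t(j)`. -/
theorem result :
    (∀ r : ℕ, 2 ≤ r → ∃ C : ℝ, 0 < C ∧ ∀ n : ℕ, 2 ≤ n → ∃ j : ℕ, n ≤ j ∧
      (j : ℝ) ≤ Real.exp (C * Real.log n ^ 2) ∧ Real.exp (-(C * Real.log n ^ 2)) ≤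
        ∑ i ∈ range (r + 1), (-1 : ℝ) ^ i * (r.choose i : ℝ) * Real.log (Kl.t (j + i))) ∧
    (∃ C : ℝ, 0 < C ∧ ∀ n : ℕ, 2 ≤ n → ∃ j : ℕ, n ≤ j ∧
      (j : ℝ) ≤ Real.exp (C * Real.log n ^ 2) ∧ Kl.t (j + 1) ^ 2 < Kl.t j * Kl.t (j + 2)) ∧
    ∃ lam : ℝ, Tendsto (fun n : ℕ => (Kl.t n : ℝ) ^ ((1 : ℝ) / n)) atTop (𝓝 lam) ∧
      ∃ C : ℝ, 0 < C ∧ ∀ n : ℕ, 2 ≤ n → ∃ j : ℕ, n ≤ j ∧
        (j : ℝ) ≤ Real.exp (C * Real.log n ^ 2) ∧ (Kl.t (j + 1) : ℝ) < lam * Kl.t j := by
  have h1 : ∀ r : ℕ, 2 ≤ r → ∃ C : ℝ, 0 < C ∧ ∀ n : ℕ, 2 ≤ n → ∃ j : ℕ, n ≤ j ∧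
      (j : ℝ) ≤ Real.exp (C * Real.log n ^ 2) ∧ Real.exp (-(C * Real.log n ^ 2)) ≤
        ∑ i ∈ range (r + 1), (-1 : ℝ) ^ i * (r.choose i : ℝ) * Real.log (Kl.t (j + i)) := by
    intro r hr
    obtain ⟨k, rfl⟩ : ∃ k, r = k + 1 := ⟨r - 1, by omega⟩
    obtain ⟨C, hC, h⟩ := all k
    refine ⟨C, hC, fun n hn => ?_⟩
    obtain ⟨j, hj1, hj2, hj3⟩ := h n hn
    rw [F_la hr (by omega)] at hj3
    exact ⟨j, hj1, hj2, hj3⟩
  refine ⟨h1, ?_, lam, tendsto_lam, ?_⟩
  · obtain ⟨C, hC, h⟩ := h1 2 le_rfl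
    refine ⟨C, hC, fun n hn => ?_⟩
    obtain ⟨j, hj1, hj2, hj3⟩ := h n hn
    refine ⟨j, hj1, hj2, ?_⟩
    have a0 : (0 : ℝ) < Kl.t j := by exact_mod_cast t_pos (n := j) (by omega)
    have a1 : (0 : ℝ) < Kl.t (j + 1) := by exact_mod_cast t_pos (n := j + 1) (by omega)
    have a2 : (0 : ℝ) < Kl.t (j + 2) := by exact_mod_cast t_pos (n := j + 2) (by omega)
    have h4 := lt_of_lt_of_le (Real.exp_pos _) hj3
    rw [sum_range_succ, sum_range_succ, sum_range_one] at h4
    norm_num [Nat.choose] at h4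
    have h5 : Real.log ((Kl.t (j + 1) : ℝ) ^ 2) < Real.log ((Kl.t j : ℝ) * Kl.t (j + 2)) := by
      rw [Real.log_pow, Real.log_mul a0.ne' a2.ne']
      push_cast
      linarith
    have h6 := (Real.log_lt_log_iff (by positivity) (by positivity)).1 h5
    exact_mod_cast h6
  · obtain ⟨C, hC, h⟩ := base
    refine ⟨C, hC, fun n hn => ?_⟩
    obtain ⟨j, hj1, hj2, hj3⟩ := h n hn
    refine ⟨j, hj1, hj2, ?_⟩
    have hl := lam_pos
    have h4 := lt_of_lt_of_le (Real.exp_pos _) hj3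
    rw [F_succ, F_zero, F_zero] at h4
    have a0 := aa_pos (n := j) (by omega)
    have a1 := aa_pos (n := j + 1) (by omega)
    have h5 : aa (j + 1) < aa j := by
      unfold la at h4
      exact (Real.log_lt_log_iff a1 a0).1 (by linarith)
    rw [t_eq_aa (j + 1), t_eq_aa j, pow_succ]
    have h6 : 0 < lam ^ j * lam := by positivity
    nlinarith

end Pool.Agent.Results.MP_56ddc0_co.Ascents
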